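import Pool.Agent.P8H56.CF.Main

/-!
# Homological and numerical equivalence for a positive proportion of all primes `ℓ`: a theorem of
# Clozel type for arbitrary varieties

Clozel has proved that for an abelian variety over a finite field homological and numerical
equivalence coincide for the `ℓ`-adic cohomology, for a set of primes `ℓ` of positive density. We
prove a theorem of this type for arbitrary varieties over arbitrary fields, and for all varieties
dominated by their products, in which moreover arbitrary further factors are allowed.

Let `k` be a field (algebraically closed in the applications) and `W` a Weil cohomology theory with
coefficients in a field `K` of characteristic zero, on a class of smooth proper varieties over `k`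
closed under products. For a variety `X` let `T^i(X) ⊆ H^i(X)` be the orthogonal complement of all
algebraic classes. We consider the operators on `H(X)` in the algebra generated by the algebraic
correspondences of degree `0` and by the *symmetries* of the theory (`Symmetry`: for instance all
varieties in the class have models over a subfield `k₀`, and the elements of the Galois group of `k₀` act
on the `ℓ`-adic cohomology).

`T^i(X)` has a **conjugation** of type `(P, Q)` (`HasConjugation`) if it is semisimple under a set `C` of such
operators, and all operators on `T^i(X)` commuting with `C` are polynomials in one operator `e`,
`P(e) = 0`, the adjoint of which is `Q(e)` for a nondegenerate form on `T^i(X)` given by an algebraic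
correspondence (of any degree). Here `P`, `Q` have rational coefficients, `P` is squarefree and `Q(z)` is the
complex conjugate of `z` for the complex roots `z` of `P` (`IsConjugationPair`).

For example, let `X` satisfy D, the hard Lefschetz theorem and B (for a divisor `D`), and let `φ` be a **Frobenius
element** (`IsFrobeniusLike`): the Frobenius endomorphism for a model of `X` over the field with `q` elements, or,
if `k` has positive transcendence degree, a Frobenius element of the Galois group at *one* place with the
residue field `𝔽_q`, with eigenvalues of absolute value `q ^ (i / 2)` on `T^i(X)`. We prove that there is a
conjugation on `T^i(X)` if either **the characteristic polynomial of `φ` on `T^i(X)` is rational and squarefree**,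
or `P(φ) = 0` for a rational squarefree polynomial `P` and all operators on `T^i(X)` which commute with `φ`
belong to the algebra above (`TateFor`; over finite fields this is a case of the Tate conjecture for
`X × X`).

**Theorem.** Let `L j`, `j ∈ J`, be finitely many number fields, each of them totally real or a CM field
(`HasComplexConjugation`), and let `r` be the number of all their complex places. There is a set of primes `ℓ`,
**depending only on the fields `L j`, of lower density at least `2 ^ (-r)`**, such that for every field `k` and every
Weil cohomology theory `W` with coefficients in `ℚ_ℓ` (or in a subfield) for a prime `ℓ` in this set, and for
**all** varieties `X` with conjugations for which the operator `(-1) ^ i` on the `T^i(X)` is algebraic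
(`conjugationVarieties`), or with Frobenius elements as above (`frobeniusVarieties`), the eigenvalues of which
(the roots of the `P`) lie in the fields `L j`, the following holds (`StandardConjecturesFor`):

the conjecture **D holds for all varieties `V` dominated by products** of such varieties `X` (infinitely many are
allowed) and of members of `𝒴`, for **any** set `𝒴` of varieties such that D holds for all products of members of
`𝒴`; and the Lefschetz conjecture B holds for all divisors on `V` which have the hard Lefschetz property.

If all `L j` are totally real, then this is true for **every** Weil cohomology theory `W`, with any
coefficients.

So for varieties `X` with simple Frobenius spectrum, D for all products of such varieties, and with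
arbitrary varieties for which D is known, is reduced to D and B for `X` alone.

Examples, by known theorems which are not used in the proof. Let `k` be an algebraic closure of a field finitely
generated over `𝔽_p`, and consider `ℓ`-adic cohomology, `ℓ ≠ p`.

* All curves have conjugations (by the theorems of Weil, Tate, Zarhin and Mori, with `e` a generator of the centre of
  the endomorphism algebra of the Jacobian), and abelian varieties are dominated by products of curves. If `k` is
  the closure of a finite field then D for an abelian variety is Clozel's theorem; here further factors `Y ∈ 𝒴`
  are allowed, and `k` is arbitrary.
* K3 surfaces over the algebraic closure of `𝔽_p`: `TateFor` follows from the Tate conjecture for `X × X`,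
  proved by Ito, Ito and Koshikawa, and D, B are known for surfaces. So if finitely many K3 surfaces and curves are
  given, D holds for all products of any number of copies of them, and for the varieties dominated by these
  products, for a positive proportion of all `ℓ`.
* Any surface, and any variety for which D and B are known (for example complete intersections of odd
  dimension), such that one Frobenius element at one place of good reduction has no multiple eigenvalues on the
  `T^i(X)`. If `k` has positive transcendence degree then the Frobenius elements are only Galois elements: they do
  not act on the single factors of `X × X × Y` by algebraic correspondences, so that the argument of Clozel, which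
  decomposes the algebraic classes by means of the endomorphisms of the factors, cannot be used.

The proof. Let `V ≤ T^i(X)` be stable under all correspondences and symmetries. By semisimplicity there is a
projection to `V` commuting with `C`, and it is a polynomial `f(e)`. Its adjoint is `f(Q(e))`, which is `f(e)`, as
the roots `x` and `Q(x)` are conjugate over `K` and `f` takes the values `0`, `1` on them. So `V` is not isotropic,
and therefore D holds for `X`. That D and B follow for all products is a theorem about varieties the cohomology of
which has no isotropic stable subspaces (`anisotropic_iff` in the library of the starting files), proved there
by the theory of optimal one-parameter subgroups of Kempf. The fields `L j` and the density are treated with the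
theorem of Chebotarev, and `TateFor` with the double commutant theorem.
-/

universe u v

namespace Pool.Agent.Results.MP_5f0950_ag.ConjugateFrobenius

open NumberField InfinitePlace Pool.Agent.H914 Pool.Agent.Helper11K9.Dens Pool.Agent.P8H56.CF

/-- **The standard conjectures D and B for all varieties dominated by products of varieties with
Frobenius elements with simple spectrum (or other conjugations), and of arbitrary varieties for which D is
known, for a positive proportion of all primes `ℓ`.** -/
theorem result {J : Type} [Fintype J] (L : J → Type) [∀ j, Field (L j)]
    [∀ j, NumberField (L j)] (hL : ∀ j, HasComplexConjugation (L j)) :
    ∃ S : Set ℕ, HasLowerDensity S ((1 / 2 : ℝ) ^ (∑ j, nrComplexPlaces (L j))) ∧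
      ∀ {k : Type u} [Field k] {𝒱 : VarClass k} {ops : CycleOps 𝒱}
        (W : WeilCohomology.{u, v} ops),
        ((∃ ℓ ∈ S, ∃ _ : Fact ℓ.Prime, Nonempty (W.K →+* ℚ_[ℓ])) ∨
          ∀ j, nrComplexPlaces (L j) = 0) →
        StandardConjecturesFor W (conjugationVarieties W L ∪ frobeniusVarieties W L) :=
  standard_conjectures L hL

end Pool.Agent.Results.MP_5f0950_ag.ConjugateFrobenius
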