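import Pool.Agent.P8H28.DL.Fin

/-!
# One percent of the cycles on one explicit power decides conjecture D

Let `H` be a Weil cohomology theory for a class of smooth projective varieties over a field. For a
variety `Y` let `num Y` be the number of the numerically independent cycles on `Y` (the dimension of the
space of the cycles of all codimensions with rational coefficients modulo numerical equivalence; this
number does not depend on `H`) and let `alg Y` be the number of the homologically independent cycles
(the dimension of the space spanned by the classes of the cycles in `H(Y)`), so that `num Y ≤ alg Y`.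
Let `X` be a variety, let `b` be the sum of its Betti numbers, and let `κ` be a natural number.

Theorem.

1. Conjecture D is true for `X ^ (κ + 1)`, or for all `n, L ≥ 1`

     `(L - C log (n + 2) / n) num (X ^ (n + 1)) ≤ alg (X ^ (n + 1))`,

   where `C = 3 L (L + 1) (L (κ + 1) + 3) b ^ (L (κ + 1) + 5)`.
2. Conjecture D is true for `X ^ (κ + 1)`, or for all `n`

     `num (X ^ (n + 1)) / alg (X ^ (n + 1)) ≤ 56 (κ + 1) log (2 b) / log (n + 1)`.

   So, if one percent of the cycles on one power `X ^ (n + 1)`, where
   `log (n + 1) > 5600 (κ + 1) log (2 b)`, is numerically effective, then D is true for `X ^ (κ + 1)`.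
3. Let `f` be a function such that `f(d) log d → ∞` (it may tend to zero). If
   `num Y ≥ f(dim Y) alg Y` for all varieties `Y` of all sufficiently large dimensions, then D is true
   for all varieties.

The starting file `Pool/Agent/Y133/Half/DLaw.lean` proves the limit law: D is true for all powers of `X`,
or `num (X ^ (n + 1)) / alg (X ^ (n + 1))` tends to zero. Here the constants are explicit, and every
`n` is good.

The proof. Let `z` be a class of cycles on `X ^ (κ + 1)` which is numerically but not homologically
trivial. The products `z ⊗ ... ⊗ z` give a chain of `L` non-trivial subquotients of the space of the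
algebraic classes on a power `X ^ m`, `m ≤ L (κ + 1) + 3`, modulo the action of the algebraic
correspondences. Each of them contributes to the algebraic classes on `X ^ (n + 1)` at least
`num (X ^ (n + 1))` minus an error. The error is bounded by means of the logarithmic convexity of the
numbers `a i = num (X ^ i × X ^ i)` and of the inequality `b ^ (2 i) ≤ (i + 1) ^ (b ^ 2) alg (X ^ i × X ^ i)`;
if the numbers `a i` grow more slowly than this by a factor `(i + 1) ^ (L b ^ 2)`, then
`num (X ^ (n + 1)) / alg (X ^ (n + 1))` is small for this reason. For (2) one takes `L` of the order of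
`log n`, and (3) follows from (2) for `κ = 0`.
-/

open CategoryTheory AlgebraicGeometry Filter

universe u v

namespace Pool.Agent.Results.MP_5f0950_ag.EffectiveOnePercent

open Pool.Agent.H914 Pool.Agent.H914.VarClass Pool.Agent.H914.VarClass.Obj
  Pool.Agent.H914.WeilCohomology
open Pool.Agent.Y133.Half (pw algDim cycRank)

variable {k : Type u} [Field k] {𝒱 : VarClass k} {ops : CycleOps 𝒱}

/-- **One percent of the cycles on one explicit power decides conjecture D.** `pw X n` is the product
of `n + 1` copies of `X`, `cycRank ops Y` is the number of the numerically independent cycles and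
`algDim W Y` is the number of the homologically independent cycles on `Y`. -/
theorem result (W : WeilCohomology.{u, v} ops) :
    (∀ (X : 𝒱.Obj) (κ b : ℕ), b = Module.finrank W.K (W.H X) →
      (∀ L C : ℕ, 0 < L → C = 3 * L * (L + 1) * (L * (κ + 1) + 3) * b ^ (L * (κ + 1) + 5) →
        HomEqNum W (pw X κ) ∨ ∀ n : ℕ, 0 < n →
          ((L : ℝ) - C * Real.log (n + 2) / n) * cycRank ops (pw X n) ≤ algDim W (pw X n)) ∧
      (HomEqNum W (pw X κ) ∨ ∀ n : ℕ, Real.log (n + 1) * cycRank ops (pw X n) ≤
        56 * (κ + 1) * Real.log (2 * b) * algDim W (pw X n))) ∧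
    (∀ f : ℕ → ℝ, Tendsto (fun d => f d * Real.log d) atTop atTop →
      ∀ d₀ : ℕ, (∀ Y : 𝒱.Obj, d₀ ≤ Y.dim → f Y.dim * algDim W Y ≤ cycRank ops Y) →
        ∀ Y : 𝒱.Obj, HomEqNum W Y) := by
  refine ⟨fun X κ b hb => ⟨fun L C hL hC => ?_, ?_⟩, fun f hf d₀ h Y => ?_⟩
  · rw [hb] at hC
    exact Pool.Agent.P8H28.DL.d_eff W X κ L C hL hC
  · exact Pool.Agent.P8H28.DL.d_rate W X κ b hb
  · exact Pool.Agent.P8H28.DL.d_all W f hf d₀ h Y

end Pool.Agent.Results.MP_5f0950_ag.EffectiveOnePercent
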