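import Pool.Agent.P8H28.OV.Fin

/-!
# One explicit power decides the conjecture D for all powers, in characteristic zero

Let `T` be a Hodge theory for a class of smooth projective varieties over a field `k` (singular
cohomology with rational coefficients and its Hodge decomposition, `k` contained in `ℂ`). For a variety
`X` let `num n` and `alg n` be the numbers of the numerically independent and of the homologically
independent cycles (of all codimensions) on the power `X ^ (n + 1)`, so that `num n ≤ alg n`, and let `b`
be the dimension of `H(X)`.

Theorem. One of the following is true.

1. For all varieties `V` which are dominated by a product of copies of `X` (all powers of `X`, and all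
   varieties which are images of such powers): homological and numerical equivalence coincide on `V`, in
   all codimensions (D), and the standard conjectures of Lefschetz type (B, for all divisors for
   which hard Lefschetz holds) and of Künneth type (C) are true for `V`.
2. `num n / alg n` is small for ALL `n`: for all `L ≥ 1` and `n ≥ 1`

     `(L - C log (n + 2) / n) num n ≤ alg n`, `C = 3 L (L + 1) (2 L + 3) b ^ (2 L + 5)`,

   and `num n / alg n ≤ 112 log (2 b) / log (n + 1)` for all `n ≥ 1`.

So, if one percent of the cycles on ONE power `X ^ (n + 1)` with `log (n + 1) > 11200 log (2 b)` is
numerically effective, then D is true for ALL powers of `X` and B and C are true for `X` and its powers.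
For a product `X = X_1 × ... × X_r` one obtains the conjectures for all varieties dominated by products of
copies of the `X_i`.

The theorem `EffectiveOnePercent` (same problem) is about any Weil cohomology and decides D for one fixed
power `X ^ (κ + 1)` only, with constants which depend on `κ`; here the power `X ^ (n + 1)` does not depend
on the power for which D is wanted.

The proof. By `EffectiveOnePercent` for `κ = 1` either (2) is true or D is true for `X × X`. In the second
case B is true for `X` (Grothendieck, Kleiman; in the starting files `H447R3`), so it is true for all
products of copies of `X` (`X310`, `W534`: it does not depend on the divisor), and D follows from B and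
the Hodge-Riemann relations. Finally D passes to dominated varieties, and D for `V × V` gives B for
`V`.
-/

open CategoryTheory AlgebraicGeometry

universe u

namespace Pool.Agent.Results.MP_5f0950_ag.OnePowerAllPowers

open Pool.Agent.H914 Pool.Agent.H914.VarClass Pool.Agent.H914.VarClass.Obj
open Pool.Agent.Y121.AHS (HodgeTheory)
open Pool.Agent.P8H28.OV (FewEffective square_or all_of_square kunneth_of_B exists_pol)

variable {k : Type u} [Field k] {𝒱 : VarClass k} {ops : CycleOps 𝒱}

/-- **One explicit power decides the conjecture D for all powers, in characteristic zero.** -/
theorem result (T : HodgeTheory ops) (X : 𝒱.Obj) :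
    (∀ Z, IsProductOf {X} Z → ∀ V, Dominates T.W Z V → HomEqNum T.W V ∧ KunnethStd T.W V ∧
      ∀ D, V.IsCyc 1 D → HardLefschetz T.W V D → LefschetzB T.W V D) ∨ FewEffective T.W X := by
  rcases square_or T.W X with h | h
  · left
    intro Z hZ V hV
    have h1 := all_of_square T h hZ hV
    obtain ⟨D, hD, hL, _⟩ := exists_pol T V
    exact ⟨h1.1, kunneth_of_B hD hL (h1.2 D hD hL), h1.2⟩
  · exact Or.inr h

end Pool.Agent.Results.MP_5f0950_ag.OnePowerAllPowers
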