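import Pool.Agent.P8H27.MC.Num

/-!
# Homological and numerical equivalence on the products of ordinary abelian varieties whose traces of
# Frobenius lie in a totally real field with at most two primes above `p`, with arbitrary varieties

Let `q = p ^ m` and let `L` be a totally real number field, Galois over `ℚ`, with **at most two prime
ideals above `p`** (`numPrimes`), for example `ℚ` or a real quadratic field, or a field of any degree in
which the decomposition groups of `p` have index at most two. Let `S` be any set of integers `b` of `L` that
are prime to `p` (`PrimeTo`) and such that all conjugates have absolute value at most `2 √q`
(`WeilBound`), for instance all of them.

We consider **all** abelian varieties `A` over the field with `q` elements such that every eigenvalue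
of Frobenius on `H^1(A)` is supersingular or a root of `T ^ 2 - φ(b) T + q`, with `b ∈ S` and `φ` an
embedding of `L` (`HasTraces`), that is, the abelian varieties which are ordinary up to supersingular
factors and for which the eigenvalues of Frobenius plus Verschiebung belong to `L`. There are
infinitely many isogeny classes of simple factors, and `A` may have any number of them; their CM
fields are arbitrary totally imaginary quadratic extensions of the subfields of `L`. (If the product of
two eigenvalues is `q` up to a root of unity then it is assumed to be `q`; this is so over some finite
extension of the ground field.)

Let `Z` be an **arbitrary** smooth projective variety of dimension `d` over this field, such that the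
eigenvalues of Frobenius on the cohomology of `Z` are separated (`HasSeparatedRoots`, `IsSeparated`): each
of them has a weight `w`, it is not an odd power of `√q` up to a root of unity (this is only necessary
if `A` has supersingular factors), and one of the following conditions holds (`Separated`), where `s`,
`s'` run through its slopes, the valuations of its `p`-adic conjugates:

* all slopes are `w / 2` (up to roots of unity this says `ρ ^ 2 = q ^ w`);
* two slopes have a difference which is not an integer, or two times a slope is not an integer;
* some `|2 s - w|` is greater than the mean value of the numbers `(2 s' - w) ^ 2`;
* for some `n > 0` no discriminant `φ(b) ^ 2 - 4 q`, `b ∈ S`, is a square in the field generated by `ρ ^ n`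
  and the images of `L`.

For example `Z` may be a point, any variety with cohomology of Tate type, a supersingular variety
with cohomology in even degrees, a K3 surface of height `h > 2`, or an ordinary K3 surface with Picard
number less than `18`, or any product of such a variety with varieties of the first two kinds.

**Theorem** (`NumTimes`). Let `T` be the ring of cycles modulo homological equivalence (for any Weil
cohomology, for instance `ℓ`-adic cohomology for any `ℓ` different from `p`, or crystalline cohomology,
with coefficients extended to an algebraically closed field). For every `j`, homological and numerical
equivalence coincide for the cycles of codimension `j` on `A × Z` **if and only if** they coincide for the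
cycles of the codimensions `j - k`, `0 ≤ k ≤ dim A`, on `Z`. Hence the standard conjecture D is true for
`A × Z` if and only if it is true for `Z`, for all these abelian varieties `A` at once; for example it is
true for the products of `A` with all surfaces `Z` that are separated, and for `A` itself, for **all**
cohomology theories. (For abelian varieties over finite fields Clozel has proved it for infinitely
many `ℓ`.) Moreover there are finitely many products `D t` of divisor classes on `A` such that the
cycles on `A × Z` modulo homological equivalence are the direct sum of the products of the `D t` with the
cycles on `Z` (`Kunneth`). No conjecture is assumed.

The framework is the one of the starting files (`Pool.Agent.Y156.L`: the theories relative to `Z`, finite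
dimensionality of the motive of `A`, the theorem of Tate on divisors).

The proof. Suppose that a product `α_1 ... α_n ρ` of eigenvalues of `A` and of an eigenvalue `ρ` of `Z` is
a power of `q`. If `ρ` is separated then `α_1 ... α_n` is also, up to a root of unity, a power of `√q`,
and since `L` has at most two primes above `p` two of the `α` have product `q` up to a root of unity,
unless `n = 1` and `α_1` is supersingular, which is excluded as `ρ` is not an odd power of `√q`. By
induction the part of the cohomology of `A` on which these relations occur is generated by divisors,
and the complement is killed by a polynomial in the Frobenius of `A` which is coprime to the one on
the cycles of `A × Z`. So every cycle on `A × Z` is, up to homological equivalence, the sum of products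
of the `D t` with cycles on `Z`, which are obtained by multiplying with cycles on `A` and pushing forward
to `Z`; if the cycle is numerically trivial then so are these.
-/

namespace Pool.Agent.Results.MP_5f0950_ag.TracesTimesVarieties

open NumberField Polynomial Pool.Agent.P8H27.RF Pool.Agent.P8H27.MC

/-- **The standard conjecture D for the products `A × Z`**, where the abelian variety `A` has traces
of Frobenius in `L` and `Z` has separated eigenvalues: it is equivalent to the conjecture for `Z`,
bidegree by bidegree. -/
theorem result {p m : ℕ} [Fact p.Prime] (hm : 0 < m) {L : Type} [Field L] [NumberField L]
    [IsTotallyReal L] [IsGalois ℚ L] (hL : numPrimes p L ≤ 2) (S : Set (𝓞 L))
    (hS : WeilBound (p ^ m) S) (hP : PrimeTo p S) {I : Type} (f : I → ℤ[X]) :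
    NumTimes p m S f :=
  numTimes hm hS hP hL

end Pool.Agent.Results.MP_5f0950_ag.TracesTimesVarieties
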